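import Pool.Agent.W262.SH.Stm

/-!
# Project SH: quadratic characters of the absolute Galois group of the rational numbers
-/

namespace Pool.Agent.W55.SH

open Pool.Agent.W262.SH

set_option autoImplicit false

lemma exists_sqf' (n : ℤ) (hn : n ≠ 0) : ∃ s t : ℤ, t ≠ 0 ∧ Squarefree s ∧ n = s * t ^ 2 := by
  obtain ⟨a, b, hab, ha⟩ := Nat.sq_mul_squarefree n.natAbs
  have hb : b ≠ 0 := by
    rintro rfl
    apply hn
    rw [← Int.natAbs_eq_zero, ← hab]
    simp
  rcases Int.natAbs_eq n with h | h
  · refine ⟨(a : ℤ), (b : ℤ), by exact_mod_cast hb, ?_, ?_⟩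
    · rw [← Int.squarefree_natAbs]; simpa using ha
    · rw [h, ← hab]; push_cast; ring
  · refine ⟨-(a : ℤ), (b : ℤ), by exact_mod_cast hb, ?_, ?_⟩
    · rw [← Int.squarefree_natAbs]; simpa using ha
    · rw [h, ← hab]; push_cast; ring

lemma galQB : IsGalois ℚ QB := by
  have halg : Algebra.IsAlgebraic ℚ QB := by
    have h3 : (AlgebraicClosure.instAlgebra (k := ℚ) : Algebra ℚ (AlgebraicClosure ℚ)) =
        DivisionRing.toRatAlgebra := Subsingleton.elim _ _
    have h4 : @Algebra.IsAlgebraic ℚ (AlgebraicClosure ℚ) _ _ (AlgebraicClosure.instAlgebra (k := ℚ)) :=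
      AlgebraicClosure.isAlgebraic ℚ
    rw [h3] at h4
    exact h4
  have : IsAlgClosure ℚ QB := ⟨AlgebraicClosure.isAlgClosed ℚ, halg⟩
  exact IsAlgClosure.isGalois ℚ QB

theorem kum : KUM := by
  intro χ hlc hχ
  have : IsGalois ℚ QB := galQB
  by_cases hall : ∀ σ, χ σ = false
  · refine ⟨1, squarefree_one, fun s hs σ => ?_⟩
    have h1 : s ^ 2 = 1 ^ 2 := by rw [hs]; simp
    simp only [hall σ, iff_true]
    rcases sq_eq_sq_iff_eq_or_eq_neg.mp h1 with h | h
    · rw [h, map_one]
    · rw [h, map_neg, map_one]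
  · push Not at hall
    obtain ⟨τ, hτ'⟩ := hall
    have hτ : χ τ = true := by simpa using hτ'
    have hone : χ 1 = false := by
      have := hχ 1 1
      rw [mul_one] at this
      simpa using this
    have hinv : ∀ σ, χ σ⁻¹ = χ σ := by
      intro σ
      have := hχ σ⁻¹ σ
      rw [inv_mul_cancel, hone] at this
      cases h1 : χ σ⁻¹ <;> cases h2 : χ σ <;> simp [h1, h2] at this ⊢
    let U : Subgroup (QB ≃ₐ[ℚ] QB) :=
      { carrier := {σ | χ σ = false}
        mul_mem' := by
          intro a b ha hb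
          have ha' : χ a = false := ha
          have hb' : χ b = false := hb
          show χ (a * b) = false
          rw [hχ, ha', hb']; rfl
        one_mem' := hone
        inv_mem' := by
          intro a ha
          show χ a⁻¹ = false
          rw [hinv]; exact ha }
    have hUopen : IsOpen (U : Set (QB ≃ₐ[ℚ] QB)) := hlc.isOpen_fiber false
    have hUclosed : IsClosed (U : Set (QB ≃ₐ[ℚ] QB)) := U.isClosed_of_isOpen hUopen
    have hmem : ∀ σ, σ ∈ U ↔ χ σ = false := fun σ => Iff.rfl
    have hfix := InfiniteGalois.fixingSubgroup_fixedField (k := ℚ) (K := QB) ⟨U, hUclosed⟩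
    have hτU : τ ∉ (IntermediateField.fixedField U).fixingSubgroup := by
      intro h
      have h1 : τ ∈ U := by
        have : (IntermediateField.fixedField U).fixingSubgroup = U := hfix
        rw [this] at h
        exact h
      rw [hmem, hτ] at h1
      exact Bool.noConfusion h1
    rw [IntermediateField.mem_fixingSubgroup_iff] at hτU
    push Not at hτU
    obtain ⟨a, haK, haτ⟩ := hτU
    rw [IntermediateField.mem_fixedField_iff] at haK
    have haU : ∀ σ, χ σ = false → σ a = a := fun σ h => haK σ h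
    set z : QB := a - τ a with hz
    have hz0 : z ≠ 0 := fun h => haτ (sub_eq_zero.mp h).symm
    have hzf : ∀ σ, χ σ = false → σ z = z := by
      intro σ h
      have h1 : χ (τ⁻¹ * σ * τ) = false := by rw [hχ, hχ, hinv, hτ, h]; rfl
      have h2 := haU _ h1
      have h3 : σ (τ a) = τ a := by
        have h4 : τ ((τ⁻¹ * σ * τ) a) = σ (τ a) := by
          rw [← AlgEquiv.mul_apply, ← AlgEquiv.mul_apply]
          congr 1
          group
        rw [← h4, h2]
      rw [hz, map_sub, haU σ h, h3]
    have hzt : ∀ σ, χ σ = true → σ z = -z := by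
      intro σ h
      have h1 : χ (τ⁻¹ * σ) = false := by rw [hχ, hinv, hτ, h]; rfl
      have h2 := haU _ h1
      have h3 : σ a = τ a := by
        have h4 : τ ((τ⁻¹ * σ) a) = σ a := by
          rw [← AlgEquiv.mul_apply]
          congr 1
          group
        rw [← h4, h2]
      have h5 : χ (σ * τ) = false := by rw [hχ, hτ, h]; rfl
      have h6 : σ (τ a) = a := by
        have := haU _ h5
        rwa [AlgEquiv.mul_apply] at this
      rw [hz, map_sub, h3, h6]
      ring
    have hsq : z ^ 2 ∈ Set.range (algebraMap ℚ QB) := by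
      rw [InfiniteGalois.mem_range_algebraMap_iff_fixed]
      intro σ
      rw [map_pow]
      cases h : χ σ
      · rw [hzf σ h]
      · rw [hzt σ h]; ring
    obtain ⟨r, hr⟩ := hsq
    have hr0 : r ≠ 0 := by
      rintro rfl
      rw [map_zero] at hr
      exact hz0 (pow_eq_zero_iff (two_ne_zero)|>.mp hr.symm)
    obtain ⟨e, t, ht, he, het⟩ := exists_sqf' (r.num * r.den) (mul_ne_zero (Rat.num_ne_zero.mpr hr0)
      (by exact_mod_cast r.den_nz))
    have hden : (r.den : ℚ) ≠ 0 := by exact_mod_cast r.den_nz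
    have htQ : (t : ℚ) ≠ 0 := by exact_mod_cast ht
    have hrq : r * ((r.den : ℚ) / t) ^ 2 = e := by
      have h1 : r * r.den = r.num := Rat.mul_den_eq_num r
      have h2 : (r.num : ℚ) * r.den = e * t ^ 2 := by exact_mod_cast het
      field_simp
      rw [mul_comm ((t : ℚ) ^ 2) (e : ℚ), ← h2, ← h1]
      ring
    set c : ℚ := (r.den : ℚ) / t with hc
    have hc0 : c ≠ 0 := div_ne_zero hden htQ
    have hcQB : algebraMap ℚ QB c ≠ 0 := by
      rw [Ne, map_eq_zero]; exact hc0
    set w : QB := z * algebraMap ℚ QB c with hw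
    have hw0 : w ≠ 0 := mul_ne_zero hz0 hcQB
    have hw2 : w ^ 2 = e := by
      rw [hw, mul_pow, ← hr, ← map_pow, ← map_mul, hrq]
      simp
    have hwf : ∀ σ : QB ≃ₐ[ℚ] QB, σ w = w ↔ χ σ = false := by
      intro σ
      cases h : χ σ
      · simp only [iff_true]
        rw [hw, map_mul, hzf σ h, AlgEquiv.commutes]
      · simp only [Bool.true_eq_false, iff_false]
        rw [hw, map_mul, hzt σ h, AlgEquiv.commutes]
        intro h1
        rw [neg_mul] at h1
        exact hw0 (by rw [hw]; exact self_eq_neg.mp h1.symm)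
    refine ⟨e, he, fun s hs σ => ?_⟩
    have h1 : s ^ 2 = w ^ 2 := by rw [hs, hw2]
    rcases sq_eq_sq_iff_eq_or_eq_neg.mp h1 with h | h
    · rw [h]; exact hwf σ
    · rw [h, map_neg, neg_inj]; exact hwf σ

end Pool.Agent.W55.SH
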